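import Pool.Agent.W544.FF.Defs2

/-!
# Project FF (helper544), part GPM
-/

set_option autoImplicit false

open Matrix Finset Module

namespace Pool.Agent.W240.FF

open Pool.Agent.W544.PG Pool.Agent.W544.FF

theorem prod_reps {m : ℕ} {K : Type} [CommMonoid K] (σ : Fin m → Fin m) (hσ : ∀ j, σ (σ j) = j)
    (F : Fin m → K) (hF : ∀ j, F (σ j) = F j) (R1 R2 : Fin m → Prop) [DecidablePred R1]
    [DecidablePred R2] (h1 : ∀ j, R1 j → ¬ R1 (σ j)) (h2 : ∀ j, R2 j → ¬ R2 (σ j))
    (h1' : ∀ j, σ j ≠ j → R1 j ∨ R1 (σ j)) (h2' : ∀ j, σ j ≠ j → R2 j ∨ R2 (σ j))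
    (h1n : ∀ j, R1 j → σ j ≠ j) (h2n : ∀ j, R2 j → σ j ≠ j) :
    ∏ j with R1 j, F j = ∏ j with R2 j, F j := by
  refine Finset.prod_nbij' (fun j => if R2 j then j else σ j) (fun j => if R1 j then j else σ j)
    ?_ ?_ ?_ ?_ ?_
  · intro j hj
    rw [mem_filter] at hj ⊢
    refine ⟨mem_univ _, ?_⟩
    by_cases h : R2 j
    · rw [if_pos h]; exact h
    · rw [if_neg h]
      exact (h2' j (h1n j hj.2)).resolve_left h
  · intro j hj
    rw [mem_filter] at hj ⊢
    refine ⟨mem_univ _, ?_⟩
    by_cases h : R1 j
    · rw [if_pos h]; exact h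
    · rw [if_neg h]
      exact (h1' j (h2n j hj.2)).resolve_left h
  · intro j hj
    rw [mem_filter] at hj
    by_cases h : R2 j
    · simp only [if_pos h, if_pos hj.2]
    · simp only [if_neg h, if_neg (h1 j hj.2), hσ]
  · intro j hj
    rw [mem_filter] at hj
    by_cases h : R1 j
    · simp only [if_pos h, if_pos hj.2]
    · simp only [if_neg h, if_neg (h2 j hj.2), hσ]
  · intro j _
    by_cases h : R2 j
    · simp only [if_pos h]
    · simp only [if_neg h, hF]

theorem fac_symm {K : Type} [Field K] {n r s : ℕ} (c : Fin n → Fin r) (d : Fin s → Fin r)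
    (Q : Matrix (Fin n) (Fin n) K) (hBD : BD c Q) (hQ : Qᵀ = Q) (α : Fin r)
    (x y : Fin s ⊕ Fin n) :
    (if Sum.elim d c x = α then Matrix.fromBlocks 0 0 0 Q x y else (0 : K)) =
      if Sum.elim d c y = α then Matrix.fromBlocks 0 0 0 Q y x else 0 := by
  have hsym : ∀ a b, Q a b = Q b a := fun a b => by
    conv_lhs => rw [← hQ]
    rfl
  rcases x with x | x
  · rcases y with y | y
    · split_ifs <;> simp
    · split_ifs <;> simp
  · rcases y with y | y
    · split_ifs <;> simp
    · split_ifs with h1 h2 h2
      · rw [Matrix.fromBlocks_apply₂₂, Matrix.fromBlocks_apply₂₂]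
        exact hsym x y
      · rw [Matrix.fromBlocks_apply₂₂]
        rw [Sum.elim_inr] at h1 h2
        exact hBD x y (fun h => h2 (h ▸ h1))
      · rw [Matrix.fromBlocks_apply₂₂]
        rw [Sum.elim_inr] at h1 h2
        exact (hBD y x (fun h => h1 (h ▸ h2))).symm
      · rfl

theorem gpm : S_gpm := by
  intro K _ n r s m c d a Q D π hBD hQ hπ t ht
  unfold algE at ht ⊢
  induction ht using Submodule.span_induction with
  | zero => exact Submodule.zero_mem _
  | add x y _ _ hx hy => exact Submodule.add_mem _ hx hy
  | smul z x _ hx => exact Submodule.smul_mem _ z hx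
  | mem t ht =>
    apply Submodule.subset_span
    obtain ⟨σ, ν, S, g, ⟨hσ, ha, hν, hg, hσg, hag⟩, hS, rfl⟩ := ht
    have haπ : ∀ j, a (π.symm j) = a j := fun j => by
      rw [← hπ (π.symm j), Equiv.apply_symm_apply]
    refine ⟨fun j => π (σ (π.symm j)), fun j => ν (π.symm j), S, fun b => π (g b),
      ⟨?_, ?_, ?_, ?_, ?_, ?_⟩, hS, ?_⟩
    · intro j
      simp only [Equiv.symm_apply_apply, hσ, Equiv.apply_symm_apply]
    · intro j
      rw [hπ, ha, haπ]
    · intro j b h
      rw [hν _ b h, haπ]
    · exact π.injective.comp hg
    · intro b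
      simp only [Equiv.symm_apply_apply, hσg]
    · intro b
      rw [hπ, hag]
    · funext J
      unfold gnr
      congr 1
      · congr 1
        · -- the algebraic factors
          refine Finset.prod_equiv π ?_ ?_
          · intro i
            simp only [mem_filter, mem_univ, true_and, Equiv.symm_apply_apply]
            constructor
            · rintro ⟨h1, h2⟩
              exact ⟨by rw [h1], fun b h => h2 b (π.injective h)⟩
            · rintro ⟨h1, h2⟩
              exact ⟨π.injective h1, fun b h => h2 b (by rw [h])⟩
          · intro i _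
            beta_reduce
            rw [Equiv.symm_apply_apply]
        · -- the pairs
          have hRHS : (∏ j with j < π (σ (π.symm j)),
              if Sum.elim d c (J j) = a j then
                Matrix.fromBlocks 0 0 0 Q (J j) (J (π (σ (π.symm j)))) else (0 : K)) =
              ∏ i with π i < π (σ i), if Sum.elim d c (J (π i)) = a i then
                Matrix.fromBlocks 0 0 0 Q (J (π i)) (J (π (σ i))) else 0 := by
            symm
            refine Finset.prod_equiv π ?_ ?_
            · intro i
              simp only [mem_filter, mem_univ, true_and, Equiv.symm_apply_apply]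
            · intro i _
              rw [Equiv.symm_apply_apply, hπ]
          rw [hRHS]
          refine prod_reps σ hσ (fun i => if Sum.elim d c (J (π i)) = a i then
                Matrix.fromBlocks 0 0 0 Q (J (π i)) (J (π (σ i))) else 0) ?_
            (fun j => j < σ j) (fun j => π j < π (σ j)) ?_ ?_ ?_ ?_ ?_ ?_
          · intro j
            simp only [hσ, ha]
            exact fac_symm c d Q hBD hQ _ _ _
          · intro j h1 h2
            rw [hσ] at h2
            exact absurd h1 (not_lt.2 h2.le)
          · intro j h1 h2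
            rw [hσ] at h2
            exact absurd h1 (not_lt.2 h2.le)
          · intro j h
            rw [hσ]
            exact (lt_or_gt_of_ne (Ne.symm h))
          · intro j h
            rw [hσ]
            exact (lt_or_gt_of_ne (fun h' => h (π.injective h').symm))
          · intro j h h'
            rw [h'] at h
            exact lt_irrefl _ h
          · intro j h h'
            rw [h'] at h
            exact lt_irrefl _ h

end Pool.Agent.W240.FF
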